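import Pool.Agent.Q33.EightF

/-! `MP_8a5308_nt`, Q1: `F_n(q)` is divisible by the Gaussian binomial `[2n, n]`. -/

namespace Pool.Agent.Results.MP_8a5308_nt.CentralModulus

open Finset Polynomial Pool.Agent.Q33.EightF

/-- **Theorem** (Q1). For every `n`, `F_n(q)` is divisible in `ℤ[q]` by the Gaussian binomial
`[2n, n]`. -/
theorem result (n : ℕ) : gauss (X : ℤ[X]) (2 * n) n ∣ F n := by
  rw [gauss_eq, two_mul]
  apply Q33.QPhi.gb_dvd
  intro d hd h
  exact F_dvd n d hd (by omega)

end Pool.Agent.Results.MP_8a5308_nt.CentralModulus
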