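import Pool.Agent.Q33.EightF

/-! `MP_8a5308_nt`, Q2: `F_n(q)` is divisible by the Gaussian binomial `[3n, n]`. -/

namespace Pool.Agent.Results.MP_8a5308_nt.TripleModulus

open Finset Polynomial Pool.Agent.Q33.EightF

/-- **Theorem** (Q2). For every `n`, `F_n(q)` is divisible in `ℤ[q]` by the Gaussian binomial
`[3n, n]`. -/
theorem result (n : ℕ) : gauss (X : ℤ[X]) (3 * n) n ∣ F n := by
  rw [gauss_eq, show 3 * n = n + 2 * n by ring]
  apply Q33.QPhi.gb_dvd
  intro d hd h
  apply F_dvd n d hd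
  have h1 : (2 * n) % d ≤ 2 * (n % d) := by
    rw [two_mul, two_mul, Nat.add_mod]
    exact Nat.mod_le _ _
  omega

end Pool.Agent.Results.MP_8a5308_nt.TripleModulus
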